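import Pool.Agent.Lib.MP_dd5d2d_nt.R7

namespace Pool.Agent.Results.MP_dd5d2d_nt.CountRate

open Filter Asymptotics

/-- The residues modulo `p` whose forward orbit under `x ↦ x ^ 2 - 1` contains `0`. -/
def Sbar (p : ℕ) : Set (ZMod p) := {a | ∃ k : ℕ, (fun x : ZMod p => x ^ 2 - 1)^[k] a = 0}

theorem result (δ : ℝ) (hδ : 0 < δ) :
    (fun x : ℝ => ({p : ℕ | p.Prime ∧ (p : ℝ) ≤ x ∧
      δ * Real.log (Real.log p) ≤ (Sbar p).ncard}.ncard : ℝ)) =O[atTop]
      fun x : ℝ => x / (Real.log x * √(Real.log (Real.log x))) :=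
  Lib.MP_dd5d2d_nt.Rate.rate hδ

theorem fin (x : ℝ) (q : ℕ → Prop) : {p : ℕ | p.Prime ∧ (p : ℝ) ≤ x ∧ q p}.Finite :=
  (Set.finite_le_nat ⌊x⌋₊).subset fun _ h => Nat.le_floor h.2.1

/-- The bound for the primes modulo which every residue reaches `0`. -/
theorem count_Q :
    (fun x : ℝ => ({p : ℕ | p.Prime ∧ (p : ℝ) ≤ x ∧ Sbar p = Set.univ}.ncard : ℝ)) =O[atTop]
      fun x : ℝ => x / (Real.log x * √(Real.log (Real.log x))) := by
  refine (IsBigO.of_bound 1 (Eventually.of_forall fun x => ?_)).trans (result 1 one_pos)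
  rw [Real.norm_natCast, Real.norm_natCast, one_mul, Nat.cast_le]
  refine Set.ncard_le_ncard (fun p ⟨h1, h2, h3⟩ => ⟨h1, h2, ?_⟩) (fin x _)
  have h4 : (1 : ℝ) ≤ p := by exact_mod_cast h1.one_le
  rw [h3, Set.ncard_univ, Nat.card_zmod, one_mul]
  exact (Real.log_le_self (Real.log_nonneg h4)).trans (Real.log_le_self (by linarith))

open Lib.MP_dd5d2d_nt in
theorem depth {n : ℤ} (hn : 2 ≤ n) {p : ℕ} (hp : p.Prime) (h : ∃ k, (p : ℤ) ∣ bf^[k] n) :
    Real.log (Real.log p) ≤ (Sbar p).ncard + Real.log (Real.log n) := by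
  classical
  have : Fact p.Prime := ⟨hp⟩
  have e : ∀ k, bf^[k] (n : ZMod p) = 0 ↔ (p : ℤ) ∣ bf^[k] n := fun k => by
    have := map_iter (Int.castRingHom (ZMod p)) k n
    simp only [eq_intCast] at this
    rw [← this, ZMod.intCast_zmod_eq_zero_iff_dvd]
  simp only [← e] at h
  have h1 := Nat.find_spec h
  have h2 : Nat.find h ≤ (Sbar p).ncard := by
    have inj : Set.InjOn (fun j => bf^[j] (n : ZMod p)) (Finset.range (Nat.find h)) := by
      have key : ∀ i j, i < j → j < Nat.find h → bf^[i] (n : ZMod p) ≠ bf^[j] (n : ZMod p) := by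
        intro i j hij hj e
        refine Nat.find_min h (m := Nat.find h - j + i) (by omega) ?_
        rw [Function.iterate_add_apply, e, ← Function.iterate_add_apply,
          Nat.sub_add_cancel hj.le, h1]
      intro i hi j hj e
      rcases lt_trichotomy i j with h | h | h
      · exact (key i j h (by simpa using hj) e).elim
      · exact h
      · exact (key j i h (by simpa using hi) e.symm).elim
    have := Set.ncard_le_ncard_of_injOn (t := Sbar p) _ (fun j hj => ?_) inj (Set.toFinite _)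
    · rwa [Set.ncard_coe_finset, Finset.card_range] at this
    · refine ⟨Nat.find h - j, ?_⟩
      have hj : j < Nat.find h := by simpa using hj
      show bf^[Nat.find h - j] (bf^[j] (n : ZMod p)) = 0
      rw [← Function.iterate_add_apply, Nat.sub_add_cancel hj.le, h1]
  have h3 : ∀ k, bf^[k] n ≤ n ^ 2 ^ k := fun k => by
    induction k with
    | zero => simp
    | succ k ih =>
      have := pow_le_pow_left₀ (by linarith [two_le_iter hn k]) ih 2
      rw [Function.iterate_succ_apply', bf, pow_succ 2, pow_mul]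
      linarith
  have h4 : (p : ℝ) ≤ n ^ 2 ^ Nat.find h := by
    exact_mod_cast (Int.le_of_dvd (by linarith [two_le_iter hn (Nat.find h)])
      ((e _).1 h1)).trans (h3 _)
  have p1 : (1 : ℝ) < p := by exact_mod_cast hp.one_lt
  have n1 : (1 : ℝ) < n := by exact_mod_cast (by omega : 1 < n)
  have h5 := Real.log_le_log (Real.log_pos p1) (Real.log_le_log (by linarith) h4)
  rw [Real.log_pow, Real.log_mul (by positivity) (Real.log_pos n1).ne', Nat.cast_pow,
    Real.log_pow, Nat.cast_ofNat] at h5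
  have h6 : (Nat.find h : ℝ) ≤ (Sbar p).ncard := by exact_mod_cast h2
  nlinarith [Real.log_two_lt_d9, Nat.cast_nonneg (α := ℝ) (Nat.find h)]

/-- The bound for the primes dividing a term of the orbit of `n`. -/
theorem count_P (n : ℤ) (hn : 2 ≤ n) :
    (fun x : ℝ => ({p : ℕ | p.Prime ∧ (p : ℝ) ≤ x ∧
      ∃ k : ℕ, (p : ℤ) ∣ (fun x : ℤ => x ^ 2 - 1)^[k] n}.ncard : ℝ)) =O[atTop]
      fun x : ℝ => x / (Real.log x * √(Real.log (Real.log x))) := by
  obtain ⟨M, hM⟩ := eventually_atTop.1 (((Real.tendsto_log_atTop.comp Real.tendsto_log_atTop).comp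
    tendsto_natCast_atTop_atTop).eventually_ge_atTop (2 * Real.log (Real.log n)))
  have c : (fun _ : ℝ => (M : ℝ)) =O[atTop]
      fun x : ℝ => x / (Real.log x * √(Real.log (Real.log x))) := by
    refine IsBigO.of_bound (2 * M) ?_
    filter_upwards [eventually_gt_atTop 0, Real.tendsto_log_atTop.eventually_gt_atTop 1]
      with x hx h1
    have a1 : √(Real.log (Real.log x)) ≤ Real.log x := Real.sqrt_le_iff.2 ⟨by linarith, by
      nlinarith [Real.log_le_self (show 0 ≤ Real.log x by linarith)]⟩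
    have a2 := Real.quadratic_le_exp_of_nonneg (show 0 ≤ Real.log x by linarith)
    have a3 := Real.sqrt_pos.2 (Real.log_pos h1)
    rw [Real.exp_log hx] at a2
    rw [Real.norm_natCast, Real.norm_of_nonneg (by positivity), mul_right_comm]
    refine le_mul_of_one_le_left (Nat.cast_nonneg _) ?_
    rw [← mul_div_assoc, le_div_iff₀ (by positivity)]
    nlinarith
  refine (IsBigO.of_bound 1 (Eventually.of_forall fun x => ?_)).trans
    ((result (1 / 2) (by norm_num)).add c)
  rw [← Nat.cast_add, Real.norm_natCast, Real.norm_natCast, one_mul, Nat.cast_le,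
    ← Set.ncard_Iio_nat M]
  refine le_trans (Set.ncard_le_ncard ?_ ((fin x _).union (Set.finite_Iio M)))
    (Set.ncard_union_le _ _)
  rintro p ⟨h1, h2, h3⟩
  refine or_iff_not_imp_right.2 fun h => ⟨h1, h2, ?_⟩
  have a1 : 2 * Real.log (Real.log n) ≤ Real.log (Real.log p) := hM p (not_lt.1 h)
  linarith [depth hn h1 h3]

end Pool.Agent.Results.MP_dd5d2d_nt.CountRate
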