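import Mathlib
import Pool.Agent.Lib.MP_dd5d2d_nt.Cyc2

set_option autoImplicit false

namespace Pool.Agent.Results.MP_dd5d2d_nt.JointLaw

open Filter Topology

/-- The residues modulo `p` whose forward orbit under `x ↦ x ^ 2 - 1` contains `0`. -/
def Sbar (p : ℕ) : Set (ZMod p) := {a | ∃ k : ℕ, (fun x : ZMod p => x ^ 2 - 1)^[k] a = 0}

/-- Modulo `p`, the map `x ↦ x ^ 2 - 1` has no cycle of length at most `N` other than the cycle
formed by `0` and `-1`. -/
def NoShortCycle (N p : ℕ) : Prop :=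
  ∀ a : ZMod p, ∀ k : ℕ, 1 ≤ k → k ≤ N → (fun x : ZMod p => x ^ 2 - 1)^[k] a = a → a = 0 ∨ a = -1

/-- The sum of `p ^ (-s)` over the primes `p` in `S`. -/
noncomputable def primeZeta (S : Set ℕ) (s : ℝ) : ℝ :=
  ∑' p : {p : ℕ // p.Prime ∧ p ∈ S}, ((p : ℕ) : ℝ) ^ (-s)

/-- The primes in `S` have Dirichlet density `δ`. -/
def HasDirichletDensity (S : Set ℕ) (δ : ℝ) : Prop :=
  Tendsto (fun s : ℝ => primeZeta S s / primeZeta Set.univ s) (𝓝[>] 1) (𝓝 δ)

open Pool.Agent.Lib.MP_dd5d2d_nt Pool.Agent.Shared.PrimeZeta Pool.Agent.Shared.FrobeniusDensity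

open scoped Classical in
theorem primeZeta_eq (S : Set ℕ) (s : ℝ) :
    primeZeta S s = psum (fun p => if p ∈ S then 1 else 0) s := by
  have := tsum_subtype {p : ℕ | p.Prime ∧ p ∈ S} fun p : ℕ => (p : ℝ) ^ (-s)
  refine this.trans (tsum_congr fun p => ?_)
  by_cases h1 : p.Prime <;> by_cases h2 : p ∈ S <;> simp [Set.indicator, h1, h2]

open scoped Classical in
theorem of_lim {S : Set ℕ} {δ : ℝ} (l : Lim (fun p => if p ∈ S then 1 else 0) δ) :
    HasDirichletDensity S δ := by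
  have := Tendsto.div l lim_one one_ne_zero
  rw [div_one] at this
  refine this.congr' ?_
  filter_upwards [tendsto_log.eventually_gt_atTop 0] with s hl
  simp only [Pi.div_apply, primeZeta_eq, Set.mem_univ, if_true]
  rw [div_div_div_cancel_right₀ hl.ne']

theorem noShort_iff (N p : ℕ) : NoShortCycle N p ↔ Cyc.NoCyc N p :=
  ⟨fun h a k hk => h a (k + 1) (by omega) hk, fun h a k h1 h2 => by
    obtain ⟨k, rfl⟩ : ∃ j, k = j + 1 := ⟨k - 1, by omega⟩
    exact h a k h2⟩

/-- The primes without a further cycle of length at most `N` have a positive Dirichlet density,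
and among them the proportion with more than `B` residues reaching `0` has order `B ^ (-1 / 2)`,
uniformly in `N`. -/
theorem result : ∃ c C : ℝ, 0 < c ∧ ∀ N : ℕ, ∃ δ : ℝ, 0 < δ ∧
    HasDirichletDensity {p | NoShortCycle N p} δ ∧ ∀ B : ℕ, 1 ≤ B → ∃ e : ℝ,
      HasDirichletDensity {p | NoShortCycle N p ∧ B < (Sbar p).ncard} e ∧
        c * δ / √B ≤ e ∧ e ≤ C * δ / √B := by
  refine ⟨1 / 4096, 424, by norm_num, fun N => ?_⟩
  obtain ⟨δ, h0, h1, h2⟩ := Cyc.joint N
  refine ⟨δ, h0, of_lim (by convert h1 using 3; exact noShort_iff N _), fun B hB => ?_⟩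
  obtain ⟨e, l, h⟩ := h2 B hB
  exact ⟨e, of_lim (by convert l using 3; exact and_congr (noShort_iff N _) Iff.rfl), h⟩

end Pool.Agent.Results.MP_dd5d2d_nt.JointLaw
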